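import Mathlib
import Pool.Agent.Helper36.PentDefs
import Pool.Agent.Helper36.PentProof

set_option autoImplicit false

namespace Pool.Agent.Results.MP_eb5608_co.Brace40

open Pool.Agent.Helper36.Pentagon

/-- The minimum number `m` of additional rods in a bracing of the regular unit pentagon exists and
is at most `40`; in particular it is not `64`. -/
theorem result : ∃ m ≤ 40, IsLeast {k : ℕ | ∃ S : UnitRodStructure, S.IsBracing k} m :=
  main

end Pool.Agent.Results.MP_eb5608_co.Brace40
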